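import Pool.Agent.Q295.PN.StmK
import Pool.Agent.W74.LP.QV

/-! Project PN, job K8: second moment of the increments of the point to point time, uniformly in
the parameter. -/

set_option autoImplicit false

namespace Pool.Agent.Q193.PN

open MeasureTheory ProbabilityTheory Filter Topology
open Pool.Agent.W533.LP Pool.Agent.Q295.PN

theorem evK (C : ℝ) (hC : 1 ≤ C) : ∀ᶠ v : ℝ in atTop, 1 ≤ v ∧
    v ^ (-(24 / 100) : ℝ) ≤ 1 / 8 ∧ 600 * v ^ (1 / 2 : ℝ) ≤ v * v ^ (-(24 / 100) : ℝ) ∧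
    20 * v ^ (1 / 2 : ℝ) ≤ v ∧
    v ^ 4 * (C * Real.exp (-(v ^ (4 / 100 : ℝ)) / (2 * C))) ≤ 1 := by
  have h1 : ∀ᶠ v : ℝ in atTop, v ^ (-(24 / 100) : ℝ) < 1 / 8 :=
    (tendsto_rpow_neg_atTop (y := (24 / 100 : ℝ)) (by norm_num)).eventually_lt_const (by norm_num)
  have h2 : ∀ᶠ v : ℝ in atTop, 600 ≤ v ^ (26 / 100 : ℝ) :=
    (tendsto_rpow_atTop (y := (26 / 100 : ℝ)) (by norm_num)).eventually_ge_atTop _
  have h3 : ∀ᶠ v : ℝ in atTop, 20 ≤ v ^ (1 / 2 : ℝ) :=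
    (tendsto_rpow_atTop (y := (1 / 2 : ℝ)) (by norm_num)).eventually_ge_atTop _
  have h4 : Tendsto (fun v : ℝ => C * ((v ^ (4 / 100 : ℝ)) ^ (100 : ℝ) *
      Real.exp (-(1 / (2 * C)) * v ^ (4 / 100 : ℝ)))) atTop (𝓝 (C * 0)) :=
    ((tendsto_rpow_mul_exp_neg_mul_atTop_nhds_zero 100 (1 / (2 * C)) (by positivity)).comp
      (tendsto_rpow_atTop (y := (4 / 100 : ℝ)) (by norm_num))).const_mul C
  rw [mul_zero] at h4
  have h5 := h4.eventually_lt_const (show (0 : ℝ) < 1 by norm_num)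
  filter_upwards [h1, h2, h3, h5, eventually_ge_atTop 1] with v e1 e2 e3 e4 e5
  have hv0 : 0 < v := by linarith
  refine ⟨e5, e1.le, ?_, ?_, ?_⟩
  · have e6 : v * v ^ (-(24 / 100) : ℝ) = v ^ (26 / 100 : ℝ) * v ^ (1 / 2 : ℝ) := by
      conv_lhs => rw [← Real.rpow_one v, ← Real.rpow_mul hv0.le, one_mul, ← Real.rpow_add hv0]
      rw [← Real.rpow_add hv0]
      norm_num
    rw [e6]
    exact mul_le_mul_of_nonneg_right e2 (by positivity)
  · have e6 : v = v ^ (1 / 2 : ℝ) * v ^ (1 / 2 : ℝ) := by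
      rw [← Real.rpow_add hv0]
      norm_num
    calc 20 * v ^ (1 / 2 : ℝ) ≤ v ^ (1 / 2 : ℝ) * v ^ (1 / 2 : ℝ) :=
          mul_le_mul_of_nonneg_right e3 (by positivity)
      _ = v := e6.symm
  · refine le_of_eq_of_le ?_ e4.le
    rw [← Real.rpow_mul hv0.le, show (4 / 100 : ℝ) * 100 = ((4 : ℕ) : ℝ) by norm_num,
      Real.rpow_natCast]
    have e6 : -(v ^ (4 / 100 : ℝ)) / (2 * C) = -(1 / (2 * C)) * v ^ (4 / 100 : ℝ) := by
      ring
    rw [e6]; ring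

theorem hor (hK1 : S_K1) (hK2 : S_K2) (hK3 : S_K3) (hKM : S_KM) (hKT : S_KT) (hK4 : S_K4) :
    ∃ C ν₀ : ℝ, 1 ≤ C ∧ 1 ≤ ν₀ ∧ ∀ {Ω : Type} [MeasurableSpace Ω] (μ : Measure Ω) (q : ℝ)
    (W : ℕ → ℕ → Ω → ℕ) (v : ℝ) (m k i : ℕ), 0 < q → q ≤ 1 / 16 → ν₀ ≤ v →
    i * Real.sqrt q ≤ 2 * v ^ (1 / 2 : ℝ) → |m * Real.sqrt q - v| ≤ 8 * v ^ (1 / 2 : ℝ) →
    |k * Real.sqrt q - v| ≤ 8 * v ^ (1 / 2 : ℝ) → Bulk μ q W →
    ∫ ω, ((Tr W (m + i) k ω : ℝ) - Tr W m k ω - i * mean (Real.sqrt q)) ^ 2 ∂μ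
      ≤ C * v ^ (52 / 100 : ℝ) := by
  obtain ⟨CE, hCE, hEX⟩ := hK4 hK2 hK3 hKM
  obtain ⟨CT, hCT, hbox⟩ := hKT hK1
  obtain ⟨ν₀, hν₀⟩ := eventually_atTop.1 (evK CE hCE)
  refine ⟨CT * 256 + 200, max ν₀ 1, by linarith, le_max_right _ _, ?_⟩
  intro Ω _ μ q W v m k i hq0 hq1 hv hi hm hk hW
  obtain ⟨hv1, hth, h600, h20, hexp⟩ := hν₀ v ((le_max_left _ _).trans hv)
  obtain ⟨r, hr⟩ : ∃ r, r = Real.sqrt q := ⟨_, rfl⟩
  rw [← hr] at hi hm hk ⊢
  have hr0 : 0 < r := by rw [hr]; exact Real.sqrt_pos.2 hq0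
  have hrr : r * r = q := by rw [hr]; exact Real.mul_self_sqrt hq0.le
  have hr1 : r ≤ 1 / 4 := by
    by_contra h
    push Not at h
    nlinarith
  have hv0 : 0 < v := by linarith
  have hP := hW.prob
  obtain ⟨θ, hθ⟩ : ∃ θ, θ = v ^ (-(24 / 100) : ℝ) := ⟨_, rfl⟩
  have hθ0 : 0 < θ := by rw [hθ]; positivity
  rw [← hθ] at hth h600
  obtain ⟨s, hs⟩ : ∃ s, s = v ^ (1 / 2 : ℝ) := ⟨_, rfl⟩
  rw [← hs] at h600 h20 hi hm hk
  have hs0 : 0 < s := by rw [hs]; positivity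
  have hs1 : 1 ≤ s := by rw [hs]; exact Real.one_le_rpow hv1 (by norm_num)
  have hss : s * s = v := by
    rw [hs, ← Real.rpow_add hv0]
    norm_num
  have hm1 := (abs_le.1 hm).1
  have hm2 := (abs_le.1 hm).2
  have hk1 := (abs_le.1 hk).1
  have hk2 := (abs_le.1 hk).2
  have hir0 : 0 ≤ (i : ℝ) * r := by positivity
  have hmr : v / 2 ≤ m * r := by linarith
  have hkr : v / 2 ≤ k * r := by linarith
  have hmi : v / 2 ≤ (m + i : ℕ) * r := by push_cast; linarith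
  have pos_of : ∀ x : ℕ, v / 2 ≤ x * r → 1 ≤ x := by
    intro x hx
    rcases Nat.eq_zero_or_pos x with h | h
    · rw [h] at hx
      simp only [Nat.cast_zero, zero_mul] at hx
      linarith
    · exact h
  have hm3 := pos_of m hmr
  have hk3 := pos_of k hkr
  have hmi3 := pos_of (m + i) hmi
  -- admissibility of the sides
  have side : ∀ x y z : ℕ, |(x : ℝ) * r - y * r| ≤ 18 * s → v / 2 ≤ z * r →
      16 * |(x : ℝ) - y| ≤ z * θ := by
    intro x y z hxy hz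
    have e1 : |(x : ℝ) * r - y * r| = |(x : ℝ) - y| * r := by
      rw [← sub_mul, abs_mul, abs_of_pos hr0]
    rw [e1] at hxy
    have e2 : v / 2 * θ ≤ z * r * θ := mul_le_mul_of_nonneg_right hz hθ0.le
    have e3 : 16 * |(x : ℝ) - y| * r ≤ z * θ * r := by linarith
    exact le_of_mul_le_mul_right e3 hr0
  have hd1 : |(m : ℝ) * r - k * r| ≤ 18 * s := by
    rw [abs_le]; constructor <;> linarith
  have hd2 : |((m + i : ℕ) : ℝ) * r - k * r| ≤ 18 * s := by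
    push_cast
    rw [abs_le]; constructor <;> linarith
  -- the exponential term
  obtain ⟨e, he⟩ : ∃ e, e = CE * Real.exp (-(v ^ (4 / 100 : ℝ)) / (2 * CE)) := ⟨_, rfl⟩
  rw [← he] at hexp
  have he0 : 0 ≤ e := by rw [he]; positivity
  have hee : CE * Real.exp (-(k * r * θ ^ 4) / CE) ≤ e := by
    rw [he]
    refine mul_le_mul_of_nonneg_left (Real.exp_le_exp.2 ?_) (by linarith)
    have e1 : θ ^ 4 * v = v ^ (4 / 100 : ℝ) := by
      rw [hθ, ← Real.rpow_natCast, ← Real.rpow_mul hv0.le]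
      conv_lhs => rw [← Real.rpow_one v, ← Real.rpow_mul hv0.le, one_mul, ← Real.rpow_add hv0]
      norm_num
    have e2 : v ^ (4 / 100 : ℝ) / 2 ≤ k * r * θ ^ 4 := by
      rw [← e1]
      have := mul_le_mul_of_nonneg_left hkr (pow_nonneg hθ0.le 4)
      linarith
    have e3 : -(v ^ (4 / 100 : ℝ)) / (2 * CE) = -(v ^ (4 / 100 : ℝ) / 2) / CE := by
      field_simp
    rw [e3]
    exact div_le_div_of_nonneg_right (neg_le_neg e2) (by linarith)
  obtain ⟨c, hc⟩ : ∃ c, c = (i : ℝ) * mean r := ⟨_, rfl⟩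
  have hKM3 := hKM.2.2.1
  have hmr1 := hKM3 r r hr0.le (by linarith) hr0.le (by linarith)
  have hmt : 0 ≤ mean r := hr0.le.trans hmr1.2.2.1
  have hmt2 : mean r ≤ 2 * r := hmr1.2.2.2.1
  have hc0 : 0 ≤ c := by rw [hc]; positivity
  have hc4 : c ≤ 4 * s := by
    rw [hc]
    have := mul_le_mul_of_nonneg_left hmt2 (Nat.cast_nonneg (α := ℝ) i)
    linarith
  rw [← hc]
  -- integrability
  have hTm : ∀ x y, Measurable (fun ω => (Tr W x y ω : ℝ)) := by
    intro x y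
    have h5 : Measurable (fun ω => (fun i j => W i j ω : ℕ → ℕ → ℕ)) :=
      measurable_pi_lambda _ fun i => measurable_pi_lambda _ fun j => hW.meas (i, j)
    exact (W74.LP.measT lMeas x y).comp h5
  have hTL : ∀ x y, MemLp (fun ω => (Tr W x y ω : ℝ)) 2 μ := fun x y =>
    (hbox μ q W x y hq0 hq1 hW).1.mono_exponent (by norm_num)
  have hQL : MemLp (fun ω => (Tr W (m + i) k ω : ℝ) - Tr W m k ω) 2 μ :=
    (hTL (m + i) k).sub (hTL m k)
  have hQi : Integrable (fun ω => ((Tr W (m + i) k ω : ℝ) - Tr W m k ω - c) ^ 2) μ :=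
    (hQL.sub (memLp_const c)).integrable_sq
  obtain ⟨Fp, hFp⟩ : ∃ Fp : (ℕ → ℕ → ℕ) → ℝ, Fp = fun w =>
    (max ((T w (m + i) k : ℝ) - T w m k - c) 0) ^ 2 := ⟨_, rfl⟩
  obtain ⟨Fm, hFm⟩ : ∃ Fm : (ℕ → ℕ → ℕ) → ℝ, Fm = fun w =>
    (max (c - ((T w (m + i) k : ℝ) - T w m k)) 0) ^ 2 := ⟨_, rfl⟩
  have hFpm : Measurable Fp := by
    rw [hFp]
    exact ((((W74.LP.measT lMeas (m + i) k).sub (W74.LP.measT lMeas m k)).sub_const c).max
      measurable_const).pow_const 2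
  have hFmm : Measurable Fm := by
    rw [hFm]
    exact ((((W74.LP.measT lMeas (m + i) k).sub (W74.LP.measT lMeas m k)).const_sub c).max
      measurable_const).pow_const 2
  have hWme : Measurable (fun ω => (fun i j => W i j ω : ℕ → ℕ → ℕ)) :=
    measurable_pi_lambda _ fun i => measurable_pi_lambda _ fun j => hW.meas (i, j)
  have hsum : ∀ x : ℝ, (x - c) ^ 2 = (max (x - c) 0) ^ 2 + (max (c - x) 0) ^ 2 := by
    intro x
    rcases le_total x c with h | h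
    · rw [max_eq_right (by linarith), max_eq_left (by linarith)]; ring
    · rw [max_eq_left (by linarith), max_eq_right (by linarith)]; ring
  have hi1 : Integrable (fun ω => Fp (fun i j => W i j ω)) μ := by
    refine hQi.mono (hFpm.comp hWme).aestronglyMeasurable (Eventually.of_forall fun ω => ?_)
    have := hsum ((Tr W (m + i) k ω : ℝ) - Tr W m k ω)
    rw [hFp, Real.norm_of_nonneg (by positivity), Real.norm_of_nonneg (by positivity), this]
    exact le_add_of_nonneg_right (by positivity)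
  have hi2 : Integrable (fun ω => Fm (fun i j => W i j ω)) μ := by
    refine hQi.mono (hFmm.comp hWme).aestronglyMeasurable (Eventually.of_forall fun ω => ?_)
    have := hsum ((Tr W (m + i) k ω : ℝ) - Tr W m k ω)
    rw [hFm, Real.norm_of_nonneg (by positivity), Real.norm_of_nonneg (by positivity), this]
    exact le_add_of_nonneg_left (by positivity)
  have hsplit : ∫ ω, ((Tr W (m + i) k ω : ℝ) - Tr W m k ω - c) ^ 2 ∂μ =
      ∫ ω, Fp (fun i j => W i j ω) ∂μ + ∫ ω, Fm (fun i j => W i j ω) ∂μ := by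
    rw [← integral_add hi1 hi2]
    refine integral_congr_ae (Eventually.of_forall fun ω => ?_)
    beta_reduce
    rw [hFp, hFm]
    exact hsum ((Tr W (m + i) k ω : ℝ) - Tr W m k ω)
  rw [hsplit]
  -- powers
  obtain ⟨R, hR⟩ : ∃ R, R = v ^ (52 / 100 : ℝ) := ⟨_, rfl⟩
  rw [← hR]
  have r1 : 1 ≤ R := by rw [hR]; exact Real.one_le_rpow hv1 (by norm_num)
  have r2 : s ≤ R := by
    rw [hR, hs]
    exact Real.rpow_le_rpow_of_exponent_le hv1 (by norm_num)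
  have r3 : (s * θ) ^ 2 = R := by
    rw [hs, hθ, hR, ← Real.rpow_add hv0, ← Real.rpow_natCast, ← Real.rpow_mul hv0.le]
    norm_num
  -- the two systems
  have hθ1 : 0 < 1 + θ := by linarith
  have ha1 : q < r * (1 + θ) := by nlinarith
  have ha1' : r * (1 + θ) ≤ 1 / 2 := by nlinarith
  have ha2 : q < r / (1 + θ) := by
    rw [lt_div_iff₀ hθ1, ← hrr]
    nlinarith
  have ha2r : r / (1 + θ) ≤ r := by
    rw [div_le_iff₀ hθ1]
    nlinarith
  have ha2' : r / (1 + θ) ≤ 1 / 2 := by linarith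
  have ha20 : 0 < r / (1 + θ) := by positivity
  have i2 : (i : ℝ) * r * θ ≤ 2 * (s * θ) := by
    have := mul_le_mul_of_nonneg_right hi hθ0.le
    linarith
  have key : ∀ a : ℝ, 0 < a → a ≤ 1 / 2 → a ≤ 2 * r → |a - r| ≤ r * θ →
      (i : ℝ) * vari a + ((i : ℝ) * mean a - c) ^ 2 ≤ 80 * R := by
    intro a ha0 ha12 ha2 har
    obtain ⟨k1, -, -, -, -, k2⟩ := hKM3 a r ha0.le ha12 hr0.le (by linarith)
    obtain ⟨-, -, -, -, -, k3⟩ := hKM3 a a ha0.le ha12 ha0.le ha12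
    have k3' : (i : ℝ) * vari a ≤ 16 * R := by
      have h1 : vari a ≤ 8 * r := by linarith
      have h2 := mul_le_mul_of_nonneg_left h1 (Nat.cast_nonneg (α := ℝ) i)
      linarith
    have k4 : |(i : ℝ) * mean a - c| ≤ 8 * (s * θ) := by
      rw [hc, ← mul_sub, abs_mul, abs_of_nonneg (Nat.cast_nonneg (α := ℝ) i)]
      have h1 : |mean a - mean r| ≤ 4 * (r * θ) := k1.trans (by linarith)
      have h2 := mul_le_mul_of_nonneg_left h1 (Nat.cast_nonneg (α := ℝ) i)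
      linarith
    have k5 : ((i : ℝ) * mean a - c) ^ 2 ≤ 64 * R := by
      rw [← sq_abs]
      refine (pow_le_pow_left₀ (abs_nonneg _) k4 2).trans (le_of_eq ?_)
      rw [mul_pow, r3]
      norm_num
    linarith
  have b1 : ∫ ω, Fp (fun i j => W i j ω) ∂μ ≤ 80 * R + CT * 256 + 1 := by
    obtain ⟨Ω₁, _, μ₁, I, J, W₁, X, hsys⟩ := lSys (κ := Empty) q (r * (1 + θ)) (fun _ => 0) hq0 ha1
      (by linarith) (fun k => ⟨le_rfl, one_pos⟩)
    obtain ⟨h0, hBk⟩ := (lOps μ₁ q).1 (r * (1 + θ)) I J W₁ _ X hsys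
    have hEq := (lLawB μ μ₁ q W W₁ hW hBk Fp hFpm).integral_eq
    rw [hEq]
    obtain ⟨hS2, hS3, -⟩ := hbox μ₁ q W₁ (m + i) k hq0 hq1 hBk
    rw [← hr] at hS3
    have hS4 : ∫ ω, (Tr W₁ (m + i) k ω : ℝ) ^ 4 ∂μ₁ ≤ (CT * 256) * (v ^ 2) ^ 2 := by
      refine hS3.trans ?_
      have h5 : (((m + i : ℕ) : ℝ) + k) * r + 1 ≤ 4 * v := by
        push_cast
        linarith
      have h6 : 0 ≤ (((m + i : ℕ) : ℝ) + k) * r + 1 := by positivity
      calc CT * ((((m + i : ℕ) : ℝ) + k) * r + 1) ^ 4 ≤ CT * (4 * v) ^ 4 :=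
            mul_le_mul_of_nonneg_left (pow_le_pow_left₀ h6 h5 4) (by linarith)
        _ = _ := by ring
    have hup := W74.LP.upper lBurke lMom lMeas lSand hq0 ha1 (by linarith) h0 m i k c (v ^ 2)
      (CT * 256) hc0 (by positivity) (fun ω => (Tr W₁ (m + i) k ω : ℝ)) (fun ω => le_rfl) hS2 hS4
    have hpe := (hEX μ₁ q θ I J W₁ m k hq0 hq1 hθ0 hth hm3 hk3 (side m k k hd1 hkr)
      (side m k m hd1 hmr)).1 (by rw [← hr]; exact h0)
    rw [← hr] at hpe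
    have e1 : (v ^ 2) ^ 2 * μ₁.real {ω | Gr I zr W₁ m k ω < Gr zr J W₁ m k ω} ≤ 1 := by
      rw [← pow_mul]
      exact le_trans (mul_le_mul_of_nonneg_left (hpe.trans hee) (by positivity)) hexp
    have e2 := key (r * (1 + θ)) (by positivity) ha1' (by nlinarith) (by
      rw [mul_add, mul_one, add_sub_cancel_left, abs_of_pos (by positivity)])
    rw [hFp]
    beta_reduce
    refine hup.trans ?_
    linarith
  have b2 : ∫ ω, Fm (fun i j => W i j ω) ∂μ ≤ 80 * R + 16 := by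
    obtain ⟨Ω₁, _, μ₁, I, J, W₁, X, hsys⟩ := lSys (κ := Empty) q (r / (1 + θ)) (fun _ => 0) hq0 ha2
      (by linarith) (fun k => ⟨le_rfl, one_pos⟩)
    obtain ⟨h0, hBk⟩ := (lOps μ₁ q).1 (r / (1 + θ)) I J W₁ _ X hsys
    have hEq := (lLawB μ μ₁ q W W₁ hW hBk Fm hFmm).integral_eq
    rw [hEq]
    have hlo := W74.LP.lower lBurke lMom lMeas lSand hq0 ha2 (by linarith) h0 m i k c hc0
    have hpe := (hEX μ₁ q θ I J W₁ (m + i) k hq0 hq1 hθ0 hth hmi3 hk3 (side (m + i) k k hd2 hkr)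
      (side (m + i) k (m + i) hd2 hmi)).2 (by rw [← hr]; exact h0)
    rw [← hr] at hpe
    have e1 : c ^ 2 * μ₁.real {ω | Gr zr J W₁ (m + i) k ω < Gr I zr W₁ (m + i) k ω} ≤ 16 := by
      have h5 : c ^ 2 ≤ 16 * v ^ 4 := by
        have h6 : c ^ 2 ≤ (4 * s) ^ 2 := pow_le_pow_left₀ hc0 hc4 2
        have h7 : (4 * s) ^ 2 = 16 * v := by rw [← hss]; ring
        have h8 : v ≤ v ^ 4 := le_self_pow₀ hv1 (by norm_num)
        linarith
      calc c ^ 2 * μ₁.real {ω | Gr zr J W₁ (m + i) k ω < Gr I zr W₁ (m + i) k ω} ≤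
            (16 * v ^ 4) * e := mul_le_mul h5 (hpe.trans hee) measureReal_nonneg (by positivity)
        _ = 16 * (v ^ 4 * e) := by ring
        _ ≤ 16 * 1 := mul_le_mul_of_nonneg_left hexp (by norm_num)
        _ = 16 := mul_one _
    have e2 := key (r / (1 + θ)) ha20 ha2' (by linarith) (by
      have h5 : r / (1 + θ) - r = -(r * θ / (1 + θ)) := by
        field_simp
        ring
      rw [h5, abs_neg, abs_of_pos (by positivity)]
      exact div_le_self (by positivity) (by linarith))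
    rw [hFm]
    beta_reduce
    refine hlo.trans ?_
    linarith
  have b3 : CT * 256 + 17 ≤ (CT * 256 + 17) * R := le_mul_of_one_le_right (by positivity) r1
  linarith

/-- Job K8. -/
theorem k8 : S_K8 := by
  intro hK1 hK2 hK3 hKM hKT hK4
  obtain ⟨C, ν₀, hC, hν₀, h⟩ := hor hK1 hK2 hK3 hKM hKT hK4
  refine ⟨C, ν₀, hC, hν₀, ?_⟩
  intro Ω _ μ q W n m k i hq0 hq1 hv hi hm hk hW
  have hr0 : 0 ≤ Real.sqrt q := Real.sqrt_nonneg q
  have e : ∀ x : ℕ, |(x : ℝ) * Real.sqrt q - n * Real.sqrt q| = |(x : ℝ) - n| * Real.sqrt q := by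
    intro x
    rw [← sub_mul, abs_mul, abs_of_nonneg hr0]
  refine ⟨h μ q W (n * Real.sqrt q) m k i hq0 hq1 hv hi (by rw [e]; exact hm)
    (by rw [e]; exact hk) hW, ?_⟩
  have h2 := h μ q (fun i j => W j i) (n * Real.sqrt q) k m i hq0 hq1 hv hi
    (by rw [e]; exact hk) (by rw [e]; exact hm) ((lOps μ q).2.2 W hW).2.2
  have e2 : ∀ x y ω, Tr W x y ω = Tr (fun i j => W j i) y x ω := fun x y ω =>
    lTransp zero zero (fun i j => W i j ω) x y
  simp only [e2 m]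
  exact h2

end Pool.Agent.Q193.PN
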