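import Pool.Agent.Q193.PN.K8

/-! Project PN, job K9: variance of the change of the point to point time under a shift of the
box, uniformly in the parameter. -/

set_option autoImplicit false

namespace Pool.Agent.Q193.PN

open MeasureTheory ProbabilityTheory Filter Topology
open Pool.Agent.W533.LP Pool.Agent.Q295.PN

/-- Job K9. -/
theorem k9 : S_K9 := by
  intro hK1 hK2 hK3 hKM hKT hK4 hK8
  obtain ⟨C, ν₀, hC, hν₀, h⟩ := hK8 hK1 hK2 hK3 hKM hKT hK4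
  obtain ⟨CT, hCT, hbox⟩ := hKT hK1
  refine ⟨16 * C, ν₀, by linarith, hν₀, ?_⟩
  intro Ω _ μ q W N i j hq0 hq1 hv hi hj hW
  have hr0 : 0 < Real.sqrt q := Real.sqrt_pos.2 hq0
  have hP := hW.prob
  obtain ⟨r, hr⟩ : ∃ r, r = Real.sqrt q := ⟨_, rfl⟩
  have hv1 : 1 ≤ (N : ℝ) * Real.sqrt q := hν₀.trans hv
  have hhalf : ((N : ℝ) * Real.sqrt q) ^ (1 / 2 : ℝ) ≤ (N : ℝ) * Real.sqrt q := by
    conv_rhs => rw [← Real.rpow_one ((N : ℝ) * Real.sqrt q)]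
    exact Real.rpow_le_rpow_of_exponent_le hv1 (by norm_num)
  have hh0 : 0 ≤ ((N : ℝ) * Real.sqrt q) ^ (1 / 2 : ℝ) := by positivity
  have le_of : ∀ x : ℕ, (x : ℝ) * Real.sqrt q ≤ ((N : ℝ) * Real.sqrt q) ^ (1 / 2 : ℝ) → x ≤ N := by
    intro x hx
    have h1 := le_of_mul_le_mul_right (hx.trans hhalf) hr0
    exact_mod_cast h1
  have hiN := le_of i hi
  have hjN := le_of j hj
  have hNi : N - i + i = N := Nat.sub_add_cancel hiN
  have hNj : N - j + j = N := Nat.sub_add_cancel hjN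
  have habs : ∀ x : ℕ, x ≤ N → (x : ℝ) * Real.sqrt q ≤ ((N : ℝ) * Real.sqrt q) ^ (1 / 2 : ℝ) →
      |((N - x : ℕ) : ℝ) - N| * Real.sqrt q ≤ 8 * ((N : ℝ) * Real.sqrt q) ^ (1 / 2 : ℝ) := by
    intro x hxN hx
    rw [Nat.cast_sub hxN, sub_sub_cancel_left, abs_neg, abs_of_nonneg (Nat.cast_nonneg _)]
    linarith
  have h0 : |((N : ℕ) : ℝ) - N| * Real.sqrt q ≤ 8 * ((N : ℝ) * Real.sqrt q) ^ (1 / 2 : ℝ) := by
    rw [sub_self, abs_zero, zero_mul]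
    positivity
  obtain ⟨P, hPd⟩ : ∃ P : ℝ, P = C * ((N : ℝ) * Real.sqrt q) ^ (52 / 100 : ℝ) := ⟨_, rfl⟩
  have hops := (lOps μ q).2.2
  -- for every bulk environment
  have main : ∀ V : ℕ → ℕ → Ω → ℕ, Bulk μ q V → ∃ x : Ω → ℝ, MemLp x 2 μ ∧
      ∫ ω, x ω ^ 2 ∂μ ≤ 4 * P ∧ ∀ ω, x ω = (Tr V N N ω : ℝ) - Tr V (N - i) (N - j) ω -
        (i * mean (Real.sqrt q) + j * mean (Real.sqrt q)) := by
    intro V hV
    have m1 := (h μ q V N (N - i) N i hq0 hq1 hv (hi.trans (by linarith)) (habs i hiN hi) h0 hV).1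
    have m2 := (h μ q V N (N - i) (N - j) j hq0 hq1 hv (hj.trans (by linarith)) (habs i hiN hi)
      (habs j hjN hj) hV).2
    rw [hNi, ← hPd] at m1
    rw [hNj, ← hPd] at m2
    have hTL : ∀ x y, MemLp (fun ω => (Tr V x y ω : ℝ)) 2 μ := fun x y =>
      (hbox μ q V x y hq0 hq1 hV).1.mono_exponent (by norm_num)
    obtain ⟨x1, hx1⟩ : ∃ x : Ω → ℝ, x = fun ω => (Tr V N N ω : ℝ) - Tr V (N - i) N ω -
      i * mean (Real.sqrt q) := ⟨_, rfl⟩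
    obtain ⟨x2, hx2⟩ : ∃ x : Ω → ℝ, x = fun ω => (Tr V (N - i) N ω : ℝ) -
      Tr V (N - i) (N - j) ω - j * mean (Real.sqrt q) := ⟨_, rfl⟩
    have l1 : MemLp x1 2 μ := by rw [hx1]; exact ((hTL _ _).sub (hTL _ _)).sub (memLp_const _)
    have l2 : MemLp x2 2 μ := by rw [hx2]; exact ((hTL _ _).sub (hTL _ _)).sub (memLp_const _)
    have p1 : ∫ ω, x1 ω ^ 2 ∂μ ≤ P := by rw [hx1]; exact m1
    have p2 : ∫ ω, x2 ω ^ 2 ∂μ ≤ P := by rw [hx2]; exact m2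
    have hm : MemLp (fun ω => x1 ω + x2 ω) 2 μ := l1.add l2
    refine ⟨fun ω => x1 ω + x2 ω, hm, ?_, ?_⟩
    · have hsq : ∫ ω, (x1 ω + x2 ω) ^ 2 ∂μ ≤ ∫ ω, 2 * (x1 ω ^ 2 + x2 ω ^ 2) ∂μ := by
        refine integral_mono hm.integrable_sq ?_ fun ω => ?_
        · exact (l1.integrable_sq.add l2.integrable_sq).const_mul 2
        · beta_reduce
          nlinarith [sq_nonneg (x1 ω - x2 ω)]
      refine hsq.trans ?_
      have j1 : ∫ ω, (x1 ω ^ 2 + x2 ω ^ 2) ∂μ = ∫ ω, x1 ω ^ 2 ∂μ + ∫ ω, x2 ω ^ 2 ∂μ :=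
        integral_add l1.integrable_sq l2.integrable_sq
      rw [integral_const_mul, j1]
      linarith
    · intro ω
      rw [hx1, hx2]
      beta_reduce
      ring
  obtain ⟨W1, hW1⟩ : ∃ W1 : ℕ → ℕ → Ω → ℕ, W1 = fun a b ω =>
    rot N N (fun a b => W a b ω) a b := ⟨_, rfl⟩
  have b1 : Bulk μ q W1 := by
    rw [hW1]
    exact (hops W hW).2.1 N N
  have b2 : Bulk μ q (shr i j W) := (hops W hW).1 i j
  obtain ⟨x, lx, px, ex⟩ := main W1 b1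
  obtain ⟨y, ly, py, ey⟩ := main (shr i j W) b2
  have i1 : ∀ ω, Tr W1 N N ω = Tr W N N ω := by
    intro ω
    have h2 := lRot (fun a b => W a b ω) N N 0 0 (Nat.zero_le _) (Nat.zero_le _)
    rw [hW1]
    exact h2
  have i2 : ∀ ω, Tr W1 (N - i) (N - j) ω = Tr (shr i j W) (N - i) (N - j) ω := by
    intro ω
    have h2 := lRot (fun a b => W a b ω) N N i j hiN hjN
    rw [hW1]
    exact h2
  have hZ : (fun ω => (Tr W N N ω : ℝ) - Tr (shr i j W) N N ω) = fun ω => x ω - y ω := by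
    funext ω
    rw [ex, ey, i1, i2]
    ring
  rw [hZ]
  have hm : MemLp (fun ω => x ω - y ω) 2 μ := lx.sub ly
  refine (variance_le_expectation_sq hm.aestronglyMeasurable).trans ?_
  have hsq : ∫ ω, ((fun ω => x ω - y ω) ^ 2) ω ∂μ ≤ ∫ ω, 2 * (x ω ^ 2 + y ω ^ 2) ∂μ := by
    refine integral_mono hm.integrable_sq ?_ fun ω => ?_
    · exact (lx.integrable_sq.add ly.integrable_sq).const_mul 2
    · simp only [Pi.pow_apply]
      nlinarith [sq_nonneg (x ω + y ω)]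
  refine hsq.trans ?_
  have j1 : ∫ ω, (x ω ^ 2 + y ω ^ 2) ∂μ = ∫ ω, x ω ^ 2 ∂μ + ∫ ω, y ω ^ 2 ∂μ :=
    integral_add lx.integrable_sq ly.integrable_sq
  rw [integral_const_mul, j1, mul_assoc, ← hPd]
  linarith

end Pool.Agent.Q193.PN
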